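import Pool.Agent.Run7.h772.KH.Thick

set_option autoImplicit false

/-!
# Maxima of zeta over fractal sets, and thick points over measures, near the critical line

For `t ≤ T` let `Z(x) = |ζ(1/2+d+i(t+x))|`, `d = d(T) → 0`, `d log T → ∞`. For almost all `t ≤ T`:

(1) the points `x` with `Z(x) ≥ d^(-V)` have `μ`-measure `d^(V²+o(1))`, for every finite measure `μ` on `[0,1]` of
dimension at least `D` and every `0 < V < √D`;
(2) the maximum of `Z` over a set `E` which carries measures of all dimensions smaller than `D` is at least `d^(-√D+o(1))`;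
(3) the maximum of `Z` over a set `E` of upper box dimension at most `D` is at most `d^(-√D-o(1))`.
-/

namespace Pool.Agent.Results.MP_abec59_nt.FractalMaxima

open MeasureTheory Filter Topology

/-- `Z(x) = |ζ(1/2+d+i(t+x))|` -/
noncomputable def Z (d t x : ℝ) : ℝ := ‖riemannZeta (1 / 2 + d + (t + x : ℝ) * Complex.I)‖

/-- the points at which the local dimension of `μ` is larger than `D`: `μ[x-r,x+r] ≤ r^s` for some `s > D` and all
small `r` -/
def above (μ : Measure ℝ) (D : ℝ) : Set ℝ :=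
  {x | ∃ s : ℝ, D < s ∧ ∃ r0 : ℝ, 0 < r0 ∧ ∀ r : ℝ, 0 < r → r ≤ r0 → μ (Set.Icc (x - r) (x + r)) ≤ ENNReal.ofReal (r ^ s)}

/-- `Q T t` holds for almost all `t ≤ T`: the exceptional set in `[0,T]` has (outer) measure at most `ε T` for every `ε > 0`
and all large `T` -/
def AlmostAll (Q : ℝ → ℝ → Prop) : Prop :=
  ∀ ε : ℝ, 0 < ε → ∀ᶠ T : ℝ in atTop, volume {t ∈ Set.Icc 0 T | ¬ Q T t} ≤ ENNReal.ofReal (ε * T)

/-- the upper box dimension of `E` is at most `D`: for every `e > 0` and all small `d`, `E` is covered by at most `d^(-D-e)`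
of the intervals `[jd, (j+1)d)` -/
def Covered (E : Set ℝ) (D : ℝ) : Prop := ∀ e : ℝ, 0 < e → ∃ d0 : ℝ, 0 < d0 ∧ ∀ d : ℝ, 0 < d → d ≤ d0 →
  ∃ G : Finset ℤ, (G.card : ℝ) ≤ d ^ (-D - e) ∧ E ⊆ ⋃ j ∈ G, Set.Ico ((j:ℝ) * d) (((j:ℝ) + 1) * d)

lemma Z_eq (d t x : ℝ) : Z d t x = Pool.Agent.W184.zn (1 / 2 + d) (t + x) := by
  unfold Z Pool.Agent.W184.zn
  congr 3
  push_cast
  ring

lemma above_anti (μ : Measure ℝ) {s s' : ℝ} (h : s ≤ s') : above μ s' ⊆ above μ s := by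
  rintro x ⟨u, hu, h2⟩
  exact ⟨u, lt_of_le_of_lt h hu, h2⟩

lemma covered_mono {E : Set ℝ} {D D' : ℝ} (h : D ≤ D') (hE : Covered E D) : Covered E D' := by
  intro e he
  obtain ⟨d0, hd0, h1⟩ := hE e he
  refine ⟨min d0 1, lt_min hd0 one_pos, fun d hd hd1 => ?_⟩
  obtain ⟨G, hG1, hG2⟩ := h1 d hd (hd1.trans (min_le_left _ _))
  refine ⟨G, hG1.trans ?_, hG2⟩
  exact Real.rpow_le_rpow_of_exponent_ge hd (hd1.trans (min_le_right _ _)) (by linarith)

open Pool.Agent.N748.GC Run7.h772.KH in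
theorem result (d : ℝ → ℝ) (hd : Tendsto d atTop (𝓝 0)) (hdL : Tendsto (fun T : ℝ => d T * Real.log T) atTop atTop)
    (D : ℝ) (hD1 : D ≤ 1) (e : ℝ) (he : 0 < e) :
    (∀ (μ : Measure ℝ) [IsFiniteMeasure μ], μ (Set.Icc (0:ℝ) 1)ᶜ = 0 → (∀ s : ℝ, s < D → μ (above μ s) ≠ 0) →
      ∀ V : ℝ, 0 < V → V < √D → AlmostAll fun T t =>
        d T ^ (V ^ 2 + e) ≤ μ.real {x | d T ^ (-V) ≤ Z (d T) t x} ∧
        μ.real {x | d T ^ (-V) ≤ Z (d T) t x} ≤ d T ^ (V ^ 2 - e)) ∧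
    (0 < D → ∀ E : Set ℝ, E ⊆ Set.Icc 0 1 →
      (∀ s : ℝ, s < D → ∃ μ : Measure ℝ, IsFiniteMeasure μ ∧ μ Eᶜ = 0 ∧ μ (above μ s) ≠ 0) →
      AlmostAll fun T t => ∃ x ∈ E, d T ^ (-√D + e) ≤ Z (d T) t x) ∧
    (0 ≤ D → ∀ E : Set ℝ, E ⊆ Set.Icc 0 1 → Covered E D →
      AlmostAll fun T t => ∀ x ∈ E, Z (d T) t x ≤ d T ^ (-√D - e)) := by
  have hP : Pd d := ⟨hd, hdL⟩
  refine ⟨?_, ?_, ?_⟩
  · intro μ _ hμ hL V hV0 hV
    have hμs : ∀ᵐ x ∂μ, x ∈ Set.Icc (0:ℝ) 1 := by rw [ae_iff]; exact hμ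
    have hD0 : 0 < D := Real.sqrt_pos.mp (hV0.trans hV)
    have hr1 : √D ≤ 1 := Real.sqrt_le_one.mpr hD1
    have h1 := thick_low hμs hV0 hV hr1 (fun s hs => hL s (by rwa [Real.sq_sqrt hD0.le] at hs)) hP he
    have h2 := thick_up hμs hV0 (by linarith) hP he
    have h3 := h1.and h2
    simp only [← Z_eq] at h3
    exact h3
  · intro hD0 E hE hL
    have hr0 : 0 < √D := Real.sqrt_pos.mpr hD0
    have hr1 : √D ≤ 1 := Real.sqrt_le_one.mpr hD1
    obtain ⟨m, hm⟩ : ∃ m : ℝ, m = min (e / 4) (√D / 4) := ⟨_, rfl⟩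
    have m0 : 0 < m := by rw [hm]; exact lt_min (by positivity) (by positivity)
    have m1 : m ≤ e / 4 := by rw [hm]; exact min_le_left _ _
    have m2 : m ≤ √D / 4 := by rw [hm]; exact min_le_right _ _
    have hsq : √D ^ 2 = D := Real.sq_sqrt hD0.le
    obtain ⟨μ, hfin, hμE, hpos⟩ := hL ((√D - m) ^ 2) (by nlinarith)
    have hμs : ∀ᵐ x ∂μ, x ∈ Set.Icc (0:ℝ) 1 := by
      rw [ae_iff]
      exact measure_mono_null (fun x hx hxE => hx (hE hxE)) hμE
    have h1 := thick_low (μ := μ) hμs (r := √D - m) (V0 := √D - 2 * m) (by linarith) (by linarith) (by linarith)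
      (fun s hs h0 => hpos (measure_mono_null (above_anti μ hs.le) h0)) hP he
    refine h1.mono ?_
    filter_upwards [Pd.pos hP, hd.eventually_le_const (show (0:ℝ) < 1 by norm_num)] with T d1 d2 t g1
    by_contra hcon
    push Not at hcon
    have h2 : μ.real {x | d T ^ (-(√D - 2 * m)) ≤ Pool.Agent.W184.zn (1 / 2 + d T) (t + x)} = 0 := by
      rw [Measure.real, measure_mono_null (t := Eᶜ) ?_ hμE, ENNReal.toReal_zero]
      intro x hx hxE
      have h3 := hcon x hxE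
      rw [Z_eq] at h3
      have h4 : d T ^ (-√D + e) ≤ d T ^ (-(√D - 2 * m)) :=
        Real.rpow_le_rpow_of_exponent_ge d1 d2 (by linarith)
      have h5 : d T ^ (-(√D - 2 * m)) ≤ Pool.Agent.W184.zn (1 / 2 + d T) (t + x) := hx
      linarith
    rw [h2] at g1
    have h6 : 0 < d T ^ ((√D - 2 * m) ^ 2 + e) := Real.rpow_pos_of_pos d1 _
    linarith
  · intro hD0 E hE hcov
    obtain ⟨D', hD'⟩ : ∃ D' : ℝ, D' = if D = 0 then min 1 ((e / 2) ^ 2) else D := ⟨_, rfl⟩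
    have a1 : 0 < D' := by
      rw [hD']
      split_ifs with h
      · exact lt_min one_pos (by positivity)
      · exact lt_of_le_of_ne hD0 (Ne.symm h)
    have a2 : D' ≤ 1 := by
      rw [hD']
      split_ifs with h
      · exact min_le_left _ _
      · exact hD1
    have a3 : D ≤ D' := by
      rw [hD']
      split_ifs with h
      · rw [h]; positivity
      · exact le_rfl
    have a4 : √D' ≤ √D + e / 2 := by
      rw [hD']
      split_ifs with h
      · rw [h, Real.sqrt_zero, zero_add]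
        exact Real.sqrt_le_iff.mpr ⟨by positivity, min_le_right _ _⟩
      · linarith
    have h1 := mx_up a1 a2 (cov_of hE (covered_mono a3 hcov)) hP (half_pos he)
    refine h1.mono ?_
    filter_upwards [Pd.pos hP, hd.eventually_le_const (show (0:ℝ) < 1 by norm_num)] with T d1 d2 t g1 x hx
    rw [Z_eq]
    refine (g1 x hx).trans ?_
    exact Real.rpow_le_rpow_of_exponent_ge d1 d2 (by linarith)

end Pool.Agent.Results.MP_abec59_nt.FractalMaxima
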