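import Pool.Agent.Run7.h291.WG.G21
import Pool.Agent.Run7.h701.WG3.CNT

set_option autoImplicit false

/-!
# High values of zeta in windows: the law of large numbers up to the edge

Let `θ > 0`, `V = √(1+θ)`, `δ → 0`, `δ log T / log² (1/δ) → ∞`, and let `m = δ^(-V) (log (1/δ))^(-1/(4V))` be the order of the
maximum of `|ζ(1/2 + δ + iu)|` over `u ∈ [t, t + δ^(-θ)]`. It is proved here that the amount of the high values obeys a law of
large numbers up to the edge, with an explicit constant: for `y` larger than a constant (and up to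
`exp (√√(log 1/δ) / 2)`), the measure of the `u` in the window with `|ζ| ≥ m / y` is `(1 + o(1)) c δ y^(2V)` as `y → ∞`, for almost
all windows, `c = a(V) / (2^(V²+1) √π V)`.

Plan, the law of large numbers for the local weights (`S_LLN`, `Run7/h291/WG/G19` to `G21`) and the statement by helper291; the
proof of the amount of high values from it (`Run7/h701/WG3`) by helper701; the local limit theorem along sequences and the mean
of the two-point function (`S_MNB`) by helper42; the moments of zeta without small primes near the line `1` (`S_ZML`) by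
helper772; the continuity of the arithmetic factor (`S_EQC`) by helper651; the joint moments outside tiny sets are the starting
library `N748`.
-/

namespace Pool.Agent.Results.MP_abec59_nt.HighValuesUpToTheEdge

open MeasureTheory Filter Topology

/-- the arithmetic factor of the moment conjecture,
`a(k) = ∏_p (1 - 1/p)^(k²) ∑_m (k (k+1) ... (k+m-1) / m!)² p^(-m)` -/
noncomputable def ak (k : ℝ) : ℝ :=
  ∏' p : Nat.Primes, ((1 - 1 / (p : ℝ)) ^ (k ^ 2) *
    ∑' m : ℕ, (∏ i ∈ Finset.range m, (k + i) / ((i : ℝ) + 1)) ^ 2 * (1 / (p : ℝ)) ^ m)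

/-- the modulus of zeta at distance `δ` from the critical line and height `u` -/
noncomputable def z (δ u : ℝ) : ℝ := ‖riemannZeta (1 / 2 + δ + u * Complex.I)‖

/-- the order of the maximum over windows of length `δ^(-θ)` -/
noncomputable def m (θ δ : ℝ) : ℝ := δ ^ (-√(1 + θ)) * Real.log (1 / δ) ^ (-(1 / (4 * √(1 + θ))))

/-- the measure of the set of the values at least `m / y` in the window `[t, t + δ^(-θ)]` -/
noncomputable def N (θ y δ t : ℝ) : ℝ := volume.real {u : ℝ | u ∈ Set.Icc t (t + δ ^ (-θ)) ∧ m θ δ / y ≤ z δ u}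

/-- the constant -/
noncomputable def c (V : ℝ) : ℝ := ak V / (2 ^ (V ^ 2 + 1) * √Real.pi * V)

open Run7.h291.WN Run7.h291.WG Pool.Agent.N748.MG

theorem result (θ ε : ℝ) (hθ : 0 < θ) (hε : 0 < ε) :
    0 < c (√(1 + θ)) ∧ ∃ A lam δ0 : ℝ, 1 ≤ A ∧ 0 < lam ∧ 0 < δ0 ∧ δ0 ≤ 1 / 16 ∧ ∀ᶠ T : ℝ in atTop,
      ∀ δ : ℝ, 0 < δ → δ ≤ δ0 → lam * Real.log (1 / δ) ^ 2 ≤ δ * Real.log T →
      ∀ y : ℝ, A ≤ y → y ≤ Real.exp (Real.log (1 / δ) ^ ((1:ℝ) / 4) / 2) →
      volume {t : ℝ | t ∈ Set.Icc 0 T ∧ ε < |N θ y δ t / (δ * y ^ (2 * √(1 + θ))) - c (√(1 + θ))|} ≤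
        ENNReal.ofReal (ε * T) := by
  set V : ℝ := √(1 + θ) with hV
  have hV2 : V ^ 2 - 1 = θ := by
    rw [hV, Real.sq_sqrt (by linarith)]
    ring
  have hV1 : 1 < V := by
    rw [hV]
    exact Real.lt_sqrt_of_sq_lt (by linarith)
  have hV0 : 0 < V := by linarith
  have hak : 0 < ak V := akp V
  have hpi := Real.pi_pos
  have hcc : c V = cV V / (2 * V) := by
    have h1 : cV V = ak V / (√Real.pi * 2 ^ (V ^ 2)) := rfl
    rw [h1]
    unfold c
    have h2 : (2:ℝ) ^ (V ^ 2 + 1) = 2 ^ (V ^ 2) * 2 := by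
      rw [Real.rpow_add (by norm_num), Real.rpow_one]
    rw [h2]
    have h3 : (0:ℝ) < 2 ^ (V ^ 2) := Real.rpow_pos_of_pos (by norm_num) _
    have h4 : 0 < √Real.pi := Real.sqrt_pos.2 hpi
    field_simp
  refine ⟨by unfold c; positivity, ?_⟩
  obtain ⟨a0, lam, δ0, h1, h2, h3, HE⟩ := Run7.h701.WG3.t_CNT lln V hV1 ε hε
  refine ⟨max 1 (Real.exp (-a0)), lam, δ0, le_max_left _ _, h1, h2, h3, ?_⟩
  filter_upwards [HE] with T hT δ hδ hδ0 hl y hy hy2
  have hy1 : 1 ≤ y := (le_max_left _ _).trans hy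
  have hy0 : 0 < y := by linarith
  have hly : Real.log y ≤ Real.log (1 / δ) ^ ((1:ℝ) / 4) / 2 := by
    rw [← Real.log_exp (Real.log (1 / δ) ^ ((1:ℝ) / 4) / 2)]
    exact Real.log_le_log hy0 hy2
  have hly2 : -Real.log y ≤ a0 := by
    have h4 := Real.log_le_log (Real.exp_pos _) ((le_max_right 1 (Real.exp (-a0))).trans hy)
    rw [Real.log_exp] at h4
    linarith
  have key := hT δ hδ hδ0 hl (-Real.log y) hly2 (by linarith)
  have h4 : m θ δ = Real.exp (lev V δ) := (MM_lev hθ hδ (hδ0.trans h3)).symm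
  have h5 : Real.exp (lev V δ + -Real.log y) = m θ δ / y := by
    rw [Real.exp_add, Real.exp_neg, Real.exp_log hy0, h4, div_eq_mul_inv]
  have h6 : Real.exp (-(2 * V * -Real.log y)) = y ^ (2 * V) := by
    rw [Real.rpow_def_of_pos hy0]
    congr 1
    ring
  have h7 : ∀ t : ℝ, volume.real (LV V (-Real.log y) δ t) = N θ y δ t := fun t => by
    unfold LV N
    rw [h5, hV2]
    rfl
  simp only [h6, h7, ← hcc] at key
  refine le_trans (measure_mono ?_) key
  rintro t ⟨⟨t0, t1⟩, ht⟩
  exact ⟨t0, t1, ht⟩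

end Pool.Agent.Results.MP_abec59_nt.HighValuesUpToTheEdge
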