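import Pool.Agent.Run7.h291.WG.G18

set_option autoImplicit false

/-!
# The maximum of zeta in windows near the critical line: the exact order and the tail

Let `θ > 0`, `δ → 0`, `δ log T / log² (1/δ) → ∞`. For `t` in `[0, T]` the maximum of `|ζ(1/2 + δ + iu)|` over the window
`[t, t + δ^(-θ)]` is `m = δ^(-√(1+θ)) (log (1/δ))^(-1/(4√(1+θ)))`, up to a random factor which is tight in `(0, ∞)`, and the
probability that the maximum exceeds `x m` is of the exact order `x^(-2√(1+θ))`, uniformly for `1 ≤ x ≤ exp ((log (1/δ))^(1/5))`.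
This is the analogue near the line, for windows longer than a bounded length, of the conjecture of Fyodorov, Hiary and
Keating (where `θ = 0`, `√(1+θ) = 1`, the second order factor is `(log log T)^(-3/4)` and the tail is `y e^(-2y)`); for `θ > 0`
the leading order, the second order and the tail of the maximum are those of independent Gaussian variables.

Plan and proof by helper291; the submean inequality for `log⁺` and the upper bound of the maximum by helper701
(`Run7/h701/MX`); the local limit theorem along sequences and the mean of the two-point function (`S_MNB`) by helper42; the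
moments of zeta without small primes near the line `1` (`S_ZML`) by helper772; the continuity of the arithmetic factor (`S_EQC`)
by helper651; the joint moments outside tiny sets are the starting library `N748`.
-/

namespace Pool.Agent.Results.MP_abec59_nt.MaximumInWindows

open MeasureTheory Filter Topology

/-- the modulus of zeta at distance `δ` from the critical line and height `u` -/
noncomputable def z (δ u : ℝ) : ℝ := ‖riemannZeta (1 / 2 + δ + u * Complex.I)‖

/-- the order of the maximum over windows of length `δ^(-θ)` -/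
noncomputable def m (θ δ : ℝ) : ℝ := δ ^ (-√(1 + θ)) * Real.log (1 / δ) ^ (-(1 / (4 * √(1 + θ))))

/-- the set of the points of the window `[t, t + δ^(-θ)]` at which zeta is at least `x m` -/
def S (θ x δ t : ℝ) : Set ℝ := {u : ℝ | u ∈ Set.Icc t (t + δ ^ (-θ)) ∧ x * m θ δ ≤ z δ u}

open Run7.h291.WN Run7.h291.WG Pool.Agent.N748.MG

theorem result (θ : ℝ) (hθ : 0 < θ) :
    (∀ ε : ℝ, 0 < ε → ∃ C lam δ0 : ℝ, 0 < C ∧ 0 < lam ∧ 0 < δ0 ∧ δ0 ≤ 1 / 16 ∧ ∀ᶠ T : ℝ in atTop,
      ∀ δ : ℝ, 0 < δ → δ ≤ δ0 → lam * Real.log (1 / δ) ^ 2 ≤ δ * Real.log T →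
      volume {t : ℝ | t ∈ Set.Icc 0 T ∧ ¬ (S θ C δ t = ∅ ∧ δ / C ≤ volume.real (S θ (1 / C) δ t))} ≤
        ENNReal.ofReal (ε * T)) ∧
    (∃ c C lam δ0 : ℝ, 0 < c ∧ 0 < C ∧ 0 < lam ∧ 0 < δ0 ∧ δ0 ≤ 1 / 16 ∧ ∀ᶠ T : ℝ in atTop,
      ∀ δ : ℝ, 0 < δ → δ ≤ δ0 → lam * Real.log (1 / δ) ^ 2 ≤ δ * Real.log T →
      ∀ x : ℝ, 1 ≤ x → x ≤ Real.exp (Real.log (1 / δ) ^ ((1:ℝ) / 5)) →
      ENNReal.ofReal (c * x ^ (-(2 * √(1 + θ))) * T) ≤
        volume {t : ℝ | t ∈ Set.Icc 0 T ∧ c * δ ≤ volume.real (S θ x δ t)} ∧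
      volume {t : ℝ | t ∈ Set.Icc 0 T ∧ (S θ x δ t).Nonempty} ≤ ENNReal.ofReal (C * x ^ (-(2 * √(1 + θ))) * T)) := by
  set V : ℝ := √(1 + θ) with hV
  have hV2 : V ^ 2 - 1 = θ := by
    rw [hV, Real.sq_sqrt (by linarith)]
    ring
  have hV1 : 1 < V := by
    rw [hV]
    exact Real.lt_sqrt_of_sq_lt (by linarith)
  have hm : ∀ δ : ℝ, 0 < δ → δ ≤ 1 / 16 → 0 < m θ δ := fun δ h0 h1 => by
    have h2 : m θ δ = MM θ δ := rfl
    rw [h2, ← MM_lev hθ h0 h1]
    exact Real.exp_pos _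
  refine ⟨fun ε hε => ?_, ?_⟩
  · obtain ⟨C, hC, lam, δ0, h1, h2, h3, HE⟩ := main Run7.h701.MX.mxu hθ 0 ε hε
    refine ⟨C + 1, lam, δ0, by linarith, h1, h2, h3, HE.mono fun T hT δ hδ hδ0 hl => ?_⟩
    refine (measure_mono ?_).trans (hT δ hδ hδ0 hl)
    rintro t ⟨⟨t0, t1⟩, ht⟩
    refine ⟨t0, t1, fun hG => ht ⟨?_, ?_⟩⟩
    · rw [Set.eq_empty_iff_forall_notMem]
      rintro u ⟨hu1, hu2⟩
      have h4 : z δ u ≤ C * m θ δ := hG.up u hu1
      have h5 := hm δ hδ (hδ0.trans h3)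
      nlinarith
    · have h4 : δ / C ≤ volume.real {u : ℝ | u ∈ Set.Icc t (t + δ ^ (-θ)) ∧ m θ δ / C ≤ z δ u} := hG.low
      have h5 := hm δ hδ (hδ0.trans h3)
      have h6 : {u : ℝ | u ∈ Set.Icc t (t + δ ^ (-θ)) ∧ m θ δ / C ≤ z δ u} ⊆ S θ (1 / (C + 1)) δ t := by
        rintro u ⟨hu1, hu2⟩
        refine ⟨hu1, le_trans ?_ hu2⟩
        rw [one_div, ← div_eq_inv_mul]
        exact div_le_div_of_nonneg_left h5.le hC (by linarith)
      have h7 := measureReal_mono (μ := volume) h6 (by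
        refine ((measure_mono (fun u hu => hu.1 : S θ (1 / (C + 1)) δ t ⊆ Set.Icc t (t + δ ^ (-θ)))).trans_lt ?_).ne
        rw [Real.volume_Icc]
        exact ENNReal.ofReal_lt_top)
      refine le_trans ?_ (h4.trans h7)
      exact div_le_div_of_nonneg_left hδ.le hC (by linarith)
  · obtain ⟨c, C, hc, hC, lam, δ0, h1, h2, h3, HE⟩ := tails_max hV1
    refine ⟨c, C, lam, δ0, hc, hC, h1, h2, h3, HE.mono fun T hT δ hδ hδ0 hl x hx hx2 => ?_⟩
    have hx0 : 0 < x := by linarith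
    have ha : 0 ≤ Real.log x := Real.log_nonneg hx
    have ha2 : Real.log x ≤ Real.log (1 / δ) ^ ((1:ℝ) / 5) := by
      rw [← Real.log_exp (Real.log (1 / δ) ^ ((1:ℝ) / 5))]
      exact Real.log_le_log hx0 hx2
    obtain ⟨g1, g2⟩ := hT δ hδ hδ0 hl (Real.log x) ha ha2
    have e1 : Real.exp (-(2 * V * Real.log x)) = x ^ (-(2 * V)) := by
      rw [Real.rpow_def_of_pos hx0]
      congr 1
      ring
    have e2 : Real.exp (lev V δ + Real.log x) = x * m θ δ := by
      rw [Real.exp_add, Real.exp_log hx0, MM_lev hθ hδ (hδ0.trans h3), mul_comm]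
      rfl
    have e3 : ∀ t, LV V (Real.log x) δ t = S θ x δ t := fun t => by
      unfold LV S
      rw [e2, hV2]
      rfl
    rw [e1] at g1 g2
    constructor
    · refine g1.trans (measure_mono ?_)
      rintro t ⟨t0, t1, t2⟩
      rw [e3] at t2
      exact ⟨⟨t0, t1⟩, t2⟩
    · refine (measure_mono ?_).trans g2
      rintro t ⟨⟨t0, t1⟩, u, ⟨hu1, hu2⟩, hu3⟩
      rw [hV2, e2]
      exact ⟨t0, t1, u, hu1, hu2, hu3⟩

end Pool.Agent.Results.MP_abec59_nt.MaximumInWindows
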